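import Pool.Agent.helper70.LE.SpecN

/-!
# Row OMP of project LE (MP_baa4d7_al): properties of `om`
-/

set_option autoImplicit false

namespace Pool.Agent.LE

open Pool.Agent.helper58.DC Pool.Agent.DI Pool.Agent.GR Pool.Agent.OB Pool.Agent.DR Pool.Agent.FI Pool.Agent.FI3 Pool.Agent.FI4

theorem OMP_coset {G : Type} [Group G] (L : Subgroup G) (a l : G) (hl : l ∈ L) (x : G) :
    (a * l)⁻¹ * x ∈ L ↔ a⁻¹ * x ∈ L := by
  have h1 : (a * l)⁻¹ * x = l⁻¹ * (a⁻¹ * x) := by group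
  rw [h1]
  exact L.mul_mem_cancel_left (L.inv_mem hl)

theorem OMP_mul {G : Type} [Group G] (L : Subgroup G) (e : G → ℂ) (a y y' : G) (hy : NY L e y) (hy' : NY L e y')
    (h1 : a⁻¹ * (y * a * y⁻¹) ∈ L) (h2 : a⁻¹ * (y' * a * y'⁻¹) ∈ L) :
    NY L e (y * y') ∧ a⁻¹ * ((y * y') * a * (y * y')⁻¹) ∈ L := by
  refine ⟨⟨(nz L).mul_mem hy.nor hy'.nor, fun x => ?_⟩, ?_⟩
  · have h3 : y * y' * x * (y * y')⁻¹ = y * (y' * x * y'⁻¹) * y⁻¹ := by group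
    rw [h3, hy.inv, hy'.inv]
  · have h3 : a⁻¹ * ((y * y') * a * (y * y')⁻¹) = (a⁻¹ * (y * a * y⁻¹)) * (y * (a⁻¹ * (y' * a * y'⁻¹)) * y⁻¹) := by group
    rw [h3]
    exact L.mul_mem h1 ((Subgroup.mem_normalizer_iff.1 hy.nor _).1 h2)

theorem OMP_stab {G : Type} [Group G] (p : ℕ) (L : Subgroup G) (a y : G) (hy : y ∈ nz L) (hay : a⁻¹ * (y * a * y⁻¹) ∈ L)
    (x : G) (hx : a⁻¹ * x ∈ L) (hp : PReg p x) : a⁻¹ * (y * x * y⁻¹) ∈ L ∧ PReg p (y * x * y⁻¹) := by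
  refine ⟨?_, ?_⟩
  · have h2 : a⁻¹ * (y * x * y⁻¹) = (a⁻¹ * (y * a * y⁻¹)) * (y * (a⁻¹ * x) * y⁻¹) := by group
    rw [h2]
    exact L.mul_mem hay ((Subgroup.mem_normalizer_iff.1 hy (a⁻¹ * x)).1 hx)
  · have h2 : orderOf (y * x * y⁻¹) = orderOf x := MulEquiv.orderOf_eq (MulAut.conj y) x
    unfold PReg
    rw [h2]
    exact hp

theorem OMP (hOMR : OMR_stmt) (hKKF : KKF_stmt) : OMP_stmt := by
  intro p M hM G _ _ L e a hHI hNY h1
  obtain ⟨F, -, ⟨x, hx, hpx, hFx⟩, hF⟩ := hOMR p M hM G L e a hHI hNY h1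
  obtain ⟨-, -, k3, -, k5, -, -⟩ := hKKF G L a hNY.nor
  refine ⟨?_, ?_, ?_, ?_⟩
  · intro y y' hy hy' hay hay'
    obtain ⟨hyy, hayy⟩ := OMP_mul L e a y y' hy hy' hay hay'
    have h2 := (hF (y * y') hyy hayy).2 x hx hpx
    obtain ⟨hs1, hs2⟩ := OMP_stab p L a y' hy'.nor hay' x hx hpx
    have h3 := (hF y hy hay).2 (y' * x * y'⁻¹) hs1 hs2
    have h4 := (hF y' hy' hay').2 x hx hpx
    have h5 : y * y' * x * (y * y')⁻¹ = y * (y' * x * y'⁻¹) * y⁻¹ := by group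
    rw [h5, h3, h4, ← mul_assoc] at h2
    have h6 := mul_right_cancel₀ hFx h2
    rw [← map_mul] at h6
    exact ((starRingEnd ℂ).injective h6).symm
  · rw [← h1, (k5 p e a hNY.nor).1, (k5 p e 1 (Subgroup.one_mem _)).1]
    refine congrArg (fun z : ℂ => z / (Nat.card L : ℂ)) ?_
    refine finsum_congr fun x => finsum_congr fun hx => ?_
    have hm : a⁻¹ * x ∈ L := hx.1
    have hxn : x ∈ nz L := by
      have h2 : x = a * (a⁻¹ * x) := by group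
      rw [h2]
      exact (nz L).mul_mem hNY.nor (Subgroup.le_normalizer hm)
    have hl : x * (a⁻¹ * x)⁻¹ * x⁻¹ ∈ L := (Subgroup.mem_normalizer_iff.1 hxn _).1 (L.inv_mem hm)
    have h2 : a * x * a⁻¹ = (x * (a⁻¹ * x)⁻¹ * x⁻¹) * x * (x * (a⁻¹ * x)⁻¹ * x⁻¹)⁻¹ := by group
    rw [h2, (k3 e hHI.cls _ hl x x).2, one_mul, inv_one, mul_one]
  · intro y l hl l' hl'
    unfold om
    have hs1 : {x : G | (a * l)⁻¹ * x ∈ L ∧ PReg p x} = {x : G | a⁻¹ * x ∈ L ∧ PReg p x} := by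
      ext x
      exact and_congr_left' (OMP_coset L a l hl x)
    have hs2 : {z : G | (y * l')⁻¹ * z ∈ L} = {z : G | y⁻¹ * z ∈ L} := by
      ext z
      exact OMP_coset L y l' hl' z
    rw [hs1, hs2]
  · intro y hy hay
    exact (hF y hy hay).1

end Pool.Agent.LE
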