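import Pool.Agent.helper83.LE.SpecB

set_option autoImplicit false

namespace Pool.Agent.LE

open Pool.Agent.helper58.DC Pool.Agent.DI Pool.Agent.GR Pool.Agent.OB Pool.Agent.DR Pool.Agent.FI Pool.Agent.FI3 Pool.Agent.FI4 Pool.Agent.FI4C

theorem DBE : DBE_stmt := by
  classical
  intro D _ _ X _ g K hK h
  have hD : (0 : ℝ) < Nat.card D := by
    have : 0 < Nat.card D := Nat.card_pos
    exact_mod_cast this
  constructor
  · intro l
    set S : ℝ := ∑ χ, ‖fh (g χ) l‖ ^ 2 with hS
    have hS0 : 0 ≤ S := Finset.sum_nonneg fun _ _ => by positivity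
    set a : X → ℂ := fun χ => (starRingEnd ℂ) (fh (g χ) l) with ha
    have h1 := h a
    have h2 : ∑ χ, ‖a χ‖ ^ 2 = S := by
      rw [hS]
      exact Finset.sum_congr rfl fun χ _ => by rw [ha, RCLike.norm_conj]
    rw [h2] at h1
    have h3 : ((Nat.card D : ℝ) * S : ℂ) = ∑ u, (∑ χ, a χ * g χ u) * (starRingEnd ℂ) (lv l u) := by
      have h4 : (S : ℂ) = ∑ χ, a χ * fh (g χ) l := by
        rw [hS, Complex.ofReal_sum]
        refine Finset.sum_congr rfl fun χ _ => ?_
        rw [ha, mul_comm, Complex.mul_conj, Complex.normSq_eq_norm_sq]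
      have hDc : ((Nat.card D : ℝ) : ℂ) ≠ 0 := by exact_mod_cast hD.ne'
      rw [h4, Finset.mul_sum]
      have h5 : ∀ χ, ((Nat.card D : ℝ) : ℂ) * (a χ * fh (g χ) l) = ∑ u, a χ * g χ u * (starRingEnd ℂ) (lv l u) := by
        intro χ
        unfold fh
        have e1 : ((Nat.card D : ℝ) : ℂ) = (Nat.card D : ℂ) := by push_cast; rfl
        rw [e1] at hDc ⊢
        rw [mul_div_assoc', mul_div_assoc', mul_comm (Nat.card D : ℂ), mul_div_assoc, div_self hDc, mul_one, Finset.mul_sum]
        exact Finset.sum_congr rfl fun u _ => by ring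
      rw [Finset.sum_congr rfl fun χ _ => h5 χ, Finset.sum_comm]
      exact Finset.sum_congr rfl fun u _ => by rw [Finset.sum_mul]
    have h4 : (Nat.card D : ℝ) * S ≤ ∑ u, ‖∑ χ, a χ * g χ u‖ := by
      have h5 : (Nat.card D : ℝ) * S = ‖((Nat.card D : ℝ) * S : ℂ)‖ := by
        rw [← Complex.ofReal_mul, Complex.norm_real, Real.norm_of_nonneg (by positivity)]
      rw [h5, h3]
      refine (norm_sum_le _ _).trans (Finset.sum_le_sum fun u _ => ?_)
      rw [norm_mul, RCLike.norm_conj, norm_lv, mul_one]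
    have h5 : (∑ u, ‖∑ χ, a χ * g χ u‖) ^ 2 ≤ (Nat.card D : ℝ) * ∑ u, ‖∑ χ, a χ * g χ u‖ ^ 2 := by
      have h6 := sq_sum_le_card_mul_sum_sq (s := (Finset.univ : Finset D)) (f := fun u => ‖∑ χ, a χ * g χ u‖)
      rw [Finset.card_univ, ← Nat.card_eq_fintype_card] at h6
      exact h6
    have h6 : ((Nat.card D : ℝ) * S) ^ 2 ≤ (Nat.card D : ℝ) * (K * Nat.card D * S) := by
      refine (pow_le_pow_left₀ (by positivity) h4 2).trans (h5.trans ?_)
      exact mul_le_mul_of_nonneg_left h1 hD.le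
    have h7 : (Nat.card D : ℝ) ^ 2 * (S * S) ≤ (Nat.card D : ℝ) ^ 2 * (K * S) := by nlinarith
    have h8 : S * S ≤ K * S := le_of_mul_le_mul_left h7 (by positivity)
    rcases hS0.eq_or_lt with h9 | h9
    · rw [← h9]
      exact hK
    · exact le_of_mul_le_mul_right h8 h9
  · intro χ
    have h1 := h (Pi.single χ 1)
    have h2 : ∀ u, ∑ χ', (Pi.single χ (1 : ℂ) : X → ℂ) χ' * g χ' u = g χ u := by
      intro u
      rw [Finset.sum_eq_single χ]
      · rw [Pi.single_eq_same, one_mul]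
      · intro b _ hb
        rw [Pi.single_eq_of_ne hb, zero_mul]
      · intro hn
        exact absurd (Finset.mem_univ _) hn
    have h3 : ∑ χ', ‖(Pi.single χ (1 : ℂ) : X → ℂ) χ'‖ ^ 2 = 1 := by
      rw [Finset.sum_eq_single χ]
      · rw [Pi.single_eq_same, norm_one, one_pow]
      · intro b _ hb
        rw [Pi.single_eq_of_ne hb, norm_zero]
        norm_num
      · intro hn
        exact absurd (Finset.mem_univ _) hn
    simp only [h2] at h1
    rw [h3, mul_one] at h1
    exact h1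

end Pool.Agent.LE
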